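import Mathlib

/-!
# Domination numbers of graph covers: no linear lower bound
-/

open Matrix

namespace Pool.Agent.Results.MP_afd993_co.NoLinearBound

universe u v

/-- Dominating sets: every vertex outside the set has a neighbour in the set. -/
def IsDominating {V : Type u} (G : SimpleGraph V) (S : Finset V) : Prop :=
  ∀ v, v ∉ S → ∃ u ∈ S, G.Adj v u

/-- The domination number. -/
noncomputable def domNum {V : Type u} (G : SimpleGraph V) : ℕ :=
  sInf {m | ∃ S : Finset V, IsDominating G S ∧ S.card = m}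

/-- `G` is a `k`-fold cover of `F`. -/
def IsCover {W : Type u} {V : Type v} (k : ℕ) (G : SimpleGraph W) (F : SimpleGraph V) : Prop :=
  ∃ π : W → V, Function.Surjective π ∧
    (∀ w, Set.BijOn π (G.neighborSet w) (F.neighborSet (π w))) ∧
    ∀ u, Nat.card {w // π w = u} = k

section Cover

variable {V : Type} [Fintype V] [DecidableEq V] (F : SimpleGraph V) {K : ℕ}
  (l : V → V → Fin (K + 1))

/-- The permutation attached to an ordered pair of adjacent vertices. -/
def sig (u v : V) : Equiv.Perm (Fin (K + 1)) :=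
  Equiv.swap 0 (l v u) * Equiv.swap (l u v) (l v u)

variable {l}

theorem sig_inv (hl : ∀ v u, l v u ≠ 0) (u v : V) : (sig l u v)⁻¹ = sig l v u := by
  unfold sig
  rw [_root_.mul_inv_rev, Equiv.swap_inv, Equiv.swap_inv, Equiv.mul_swap_eq_swap_mul,
    Equiv.swap_apply_of_ne_of_ne (hl u v).symm (hl v u).symm, Equiv.swap_apply_right,
    Equiv.swap_comm (l u v) (l v u)]

omit [Fintype V] [DecidableEq V] in
theorem sig_zero (hl : ∀ v u, l v u ≠ 0) (u v : V) : sig l u v 0 = l v u := by
  unfold sig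
  rw [Equiv.Perm.mul_apply, Equiv.swap_apply_of_ne_of_ne (hl u v).symm (hl v u).symm,
    Equiv.swap_apply_left]

/-- The cover. -/
def coverGraph (hl : ∀ v u, l v u ≠ 0) : SimpleGraph (V × Fin (K + 1)) where
  Adj p q := F.Adj p.1 q.1 ∧ q.2 = sig l p.1 q.1 p.2
  symm := ⟨by
    rintro p q ⟨h1, h2⟩
    refine ⟨h1.symm, ?_⟩
    rw [h2, ← sig_inv hl, ← Equiv.Perm.mul_apply, inv_mul_cancel, Equiv.Perm.one_apply]⟩
  loopless := ⟨fun p h => F.loopless.irrefl _ h.1⟩

theorem isCover (hl : ∀ v u, l v u ≠ 0) : IsCover (K + 1) (coverGraph F hl) F := by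
  refine ⟨Prod.fst, fun v => ⟨(v, 0), rfl⟩, ?_, ?_⟩
  · intro w
    refine ⟨fun q hq => hq.1, ?_, ?_⟩
    · rintro ⟨q1, q2⟩ hq ⟨r1, r2⟩ hr hqr
      have h1 : q1 = r1 := hqr
      subst h1
      have h2 : q2 = _ := hq.2
      have h3 : r2 = _ := hr.2
      rw [h2, h3]
    · intro v hv
      exact ⟨(v, sig l w.1 v w.2), ⟨hv, rfl⟩, rfl⟩
  · intro u
    have e : {w : V × Fin (K + 1) // w.1 = u} ≃ Fin (K + 1) :=
      { toFun := fun w => w.1.2
        invFun := fun i => ⟨(u, i), rfl⟩
        left_inv := by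
          rintro ⟨⟨a, b⟩, h⟩
          have : a = u := h
          subst this
          rfl
        right_inv := fun i => rfl }
    rw [Nat.card_congr e, Nat.card_eq_fintype_card, Fintype.card_fin]

theorem domNum_cover (hl : ∀ v u, l v u ≠ 0) (hl' : ∀ v j, j ≠ 0 → ∃ u, F.Adj v u ∧ l v u = j) :
    domNum (coverGraph F hl) ≤ Fintype.card V := by
  apply Nat.sInf_le
  refine ⟨Finset.univ.image (fun v : V => (v, (0 : Fin (K + 1)))), ?_, ?_⟩
  · rintro ⟨v, j⟩ hv
    have hj : j ≠ 0 := by
      rintro rfl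
      exact hv (Finset.mem_image_of_mem _ (Finset.mem_univ v))
    obtain ⟨u, hu, huj⟩ := hl' v j hj
    refine ⟨(u, 0), Finset.mem_image_of_mem _ (Finset.mem_univ u), ?_⟩
    apply SimpleGraph.Adj.symm
    exact ⟨hu.symm, by rw [sig_zero hl]; exact huj.symm⟩
  · rw [Finset.card_image_of_injective _ (fun a b h => (Prod.mk.inj h).1), Finset.card_univ]

/-- A graph with minimum degree at least `K ≥ 1` has a `(K+1)`-fold cover whose domination number
is at most the order of the graph. -/
theorem exists_cover [DecidableRel F.Adj] (hK : 0 < K) (hdeg : ∀ v, K ≤ F.degree v) :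
    ∃ G : SimpleGraph (V × Fin (K + 1)), IsCover (K + 1) G F ∧ domNum G ≤ Fintype.card V := by
  have : Nonempty (Fin K) := ⟨⟨0, hK⟩⟩
  have h : ∀ v : V, ∃ g : Fin K → V, Function.Injective g ∧ ∀ i, F.Adj v (g i) := by
    intro v
    have h1 : Fintype.card (Fin K) ≤ Fintype.card (F.neighborSet v) := by
      rw [Fintype.card_fin, F.card_neighborSet_eq_degree]
      exact hdeg v
    obtain ⟨g⟩ := Function.Embedding.nonempty_of_card_le h1
    exact ⟨fun i => g i, fun i j hij => g.injective (Subtype.ext hij), fun i => (g i).2⟩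
  choose g hg hga using h
  let l : V → V → Fin (K + 1) := fun v u => (Function.invFun (g v) u).succ
  have hl : ∀ v u, l v u ≠ 0 := fun v u => Fin.succ_ne_zero _
  refine ⟨coverGraph F hl, isCover F hl, domNum_cover F hl ?_⟩
  intro v j hj
  obtain ⟨i, rfl⟩ := Fin.exists_succ_eq.2 hj
  refine ⟨g v i, hga v i, ?_⟩
  simp only [l]
  rw [Function.leftInverse_invFun (hg v) i]

end Cover

section Family

/-- Nonzero vectors over the field with two elements. -/
abbrev Vec (m : ℕ) : Type := {u : Fin m → ZMod 2 // u ≠ 0}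

/-- Two distinct nonzero vectors are adjacent when their scalar product is one. -/
def dotGraph (m : ℕ) : SimpleGraph (Vec m) where
  Adj u v := u ≠ v ∧ u.1 ⬝ᵥ v.1 = 1
  symm := ⟨fun u v h => ⟨h.1.symm, by rw [dotProduct_comm]; exact h.2⟩⟩
  loopless := ⟨fun u h => h.1 rfl⟩

instance (m : ℕ) : DecidableRel (dotGraph m).Adj := fun u v =>
  inferInstanceAs (Decidable (u ≠ v ∧ u.1 ⬝ᵥ v.1 = 1))

theorem zmod2 (x : ZMod 2) (h : x ≠ 1) : x = 0 := by
  revert x; decide

theorem zmod2' (x : ZMod 2) (h : x ≠ 0) : x = 1 := by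
  revert x; decide

theorem card_dot (m : ℕ) (v : Fin m → ZMod 2) (hv : v ≠ 0) :
    2 ^ m ≤ 2 * (Finset.univ.filter (fun u : Fin m → ZMod 2 => v ⬝ᵥ u = 1)).card := by
  obtain ⟨i, hi⟩ : ∃ i, v i ≠ 0 := by
    by_contra h
    push Not at h
    exact hv (funext h)
  have h1 := Finset.card_filter_add_card_filter_not (s := (Finset.univ : Finset (Fin m → ZMod 2)))
    (fun u : Fin m → ZMod 2 => v ⬝ᵥ u = 1)
  have h2 : (Finset.univ.filter (fun u : Fin m → ZMod 2 => ¬ v ⬝ᵥ u = 1)).card ≤
      (Finset.univ.filter (fun u : Fin m → ZMod 2 => v ⬝ᵥ u = 1)).card := by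
    apply Finset.card_le_card_of_injOn (fun u => u + Pi.single i 1)
    · intro u hu
      simp only [Finset.coe_filter, Finset.mem_univ, true_and, Set.mem_ofPred_eq] at *
      rw [dotProduct_add, dotProduct_single, mul_one, zmod2 _ hu, zmod2' _ hi, zero_add]
    · intro a _ b _ hab
      exact add_right_cancel hab
  have h3 : Fintype.card (Fin m → ZMod 2) = 2 ^ m := by
    rw [Fintype.card_fun, ZMod.card, Fintype.card_fin]
  rw [Finset.card_univ, h3] at h1
  omega

theorem degree_ge (m : ℕ) (v : Vec (m + 1)) : 2 ^ m - 1 ≤ (dotGraph (m + 1)).degree v := by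
  have h1 := card_dot (m + 1) v.1 v.2
  have h2 : (Finset.univ.filter (fun u : Fin (m + 1) → ZMod 2 => v.1 ⬝ᵥ u = 1)).card ≤
      ((dotGraph (m + 1)).neighborFinset v).card + 1 := by
    have h3 : (Finset.univ.filter (fun u : Fin (m + 1) → ZMod 2 => v.1 ⬝ᵥ u = 1)) ⊆
        insert v.1 (((dotGraph (m + 1)).neighborFinset v).image Subtype.val) := by
      intro u hu
      simp only [Finset.mem_filter, Finset.mem_univ, true_and] at hu
      rw [Finset.mem_insert]
      by_cases huv : u = v.1
      · exact Or.inl huv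
      · right
        have hu0 : u ≠ 0 := by
          rintro rfl
          rw [dotProduct_zero] at hu
          exact absurd hu (by decide)
        rw [Finset.mem_image]
        refine ⟨⟨u, hu0⟩, ?_, rfl⟩
        rw [SimpleGraph.mem_neighborFinset]
        exact ⟨fun h => huv (by rw [h]), hu⟩
    refine (Finset.card_le_card h3).trans ((Finset.card_insert_le _ _).trans ?_)
    exact Nat.add_le_add_right Finset.card_image_le 1
  rw [SimpleGraph.card_neighborFinset_eq_degree] at h2
  rw [pow_succ] at h1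
  omega

theorem dom_bound (m : ℕ) (S : Finset (Vec m)) (hS : IsDominating (dotGraph m) S) :
    2 ^ m ≤ (S.card + 1) * 2 ^ S.card := by
  classical
  let f : (Fin m → ZMod 2) → (S → ZMod 2) := fun u w => u ⬝ᵥ w.1.1
  have h0 : (Finset.univ.filter (fun u : Fin m → ZMod 2 => f u = 0)).card ≤ S.card + 1 := by
    have h3 : (Finset.univ.filter (fun u : Fin m → ZMod 2 => f u = 0)) ⊆
        insert 0 (S.image Subtype.val) := by
      intro u hu
      simp only [Finset.mem_filter, Finset.mem_univ, true_and] at hu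
      rw [Finset.mem_insert]
      by_cases hu0 : u = 0
      · exact Or.inl hu0
      · right
        rw [Finset.mem_image]
        by_contra hne
        have hnot : (⟨u, hu0⟩ : Vec m) ∉ S := fun h => hne ⟨_, h, rfl⟩
        obtain ⟨w, hw, hadj⟩ := hS _ hnot
        have h4 := congrFun hu ⟨w, hw⟩
        have h5 : u ⬝ᵥ w.1 = 1 := hadj.2
        simp only [f, Pi.zero_apply] at h4
        rw [h5] at h4
        exact absurd h4 (by decide)
    refine (Finset.card_le_card h3).trans ((Finset.card_insert_le _ _).trans ?_)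
    exact Nat.add_le_add_right Finset.card_image_le 1
  have hfib : ∀ a ∈ (Finset.univ : Finset (Fin m → ZMod 2)).image f,
      (Finset.univ.filter (fun u : Fin m → ZMod 2 => f u = a)).card ≤ S.card + 1 := by
    intro a ha
    obtain ⟨u0, -, hu0⟩ := Finset.mem_image.1 ha
    refine le_trans (Finset.card_le_card_of_injOn (fun u => u - u0) ?_ ?_) h0
    · intro u hu
      simp only [Finset.coe_filter, Finset.mem_univ, true_and, Set.mem_ofPred_eq] at *
      funext w
      simp only [f, Pi.zero_apply, sub_dotProduct]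
      have h6 := congrFun hu w
      have h7 := congrFun hu0 w
      simp only [f] at h6 h7
      rw [h6, h7, sub_self]
    · intro a _ b _ hab
      exact sub_left_injective hab
  have h1 := Finset.card_le_mul_card_image (f := f) (Finset.univ : Finset (Fin m → ZMod 2))
    (S.card + 1) hfib
  have h3 : Fintype.card (Fin m → ZMod 2) = 2 ^ m := by
    rw [Fintype.card_fun, ZMod.card, Fintype.card_fin]
  rw [Finset.card_univ, h3] at h1
  refine h1.trans (Nat.mul_le_mul_left _ ?_)
  refine (Finset.card_le_univ _).trans ?_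
  rw [Fintype.card_fun, ZMod.card, Fintype.card_coe]

theorem domNum_ge (s : ℕ) : s + 1 ≤ domNum (dotGraph (2 * s + 1)) := by
  unfold domNum
  apply le_csInf
  · refine ⟨_, Finset.univ, ?_, rfl⟩
    intro v hv
    exact absurd (Finset.mem_univ v) hv
  · rintro b ⟨S, hS, rfl⟩
    by_contra hlt
    push Not at hlt
    have h1 := dom_bound _ S hS
    have h2 : S.card ≤ s := by omega
    have h3 : S.card + 1 ≤ 2 ^ S.card := Nat.lt_two_pow_self
    have h4 : (S.card + 1) * 2 ^ S.card ≤ 2 ^ s * 2 ^ s := by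
      apply Nat.mul_le_mul
      · exact h3.trans (Nat.pow_le_pow_right (by norm_num) h2)
      · exact Nat.pow_le_pow_right (by norm_num) h2
    have h5 : 2 ^ (2 * s + 1) = 2 * (2 ^ s * 2 ^ s) := by ring
    have h6 : 0 < 2 ^ s * 2 ^ s := by positivity
    omega

theorem card_vec (m : ℕ) : Fintype.card (Vec m) = 2 ^ m - 1 := by
  have h3 : Fintype.card (Fin m → ZMod 2) = 2 ^ m := by
    rw [Fintype.card_fun, ZMod.card, Fintype.card_fin]
  rw [← h3]
  have := Fintype.card_subtype_compl (fun u : Fin m → ZMod 2 => u = 0)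
  rw [Fintype.card_subtype_eq] at this
  exact this

end Family

/-- For every `c > 0` there are `k ≥ 1`, a finite graph `F` and a `k`-fold cover `G` of `F` with
`γ(G) < c k γ(F)`. -/
theorem result : ∀ c : ℝ, 0 < c → ∃ (k : ℕ) (V W : Type) (_ : Finite V) (_ : Finite W)
    (F : SimpleGraph V) (G : SimpleGraph W),
    1 ≤ k ∧ IsCover k G F ∧ (domNum G : ℝ) < c * k * domNum F := by
  intro c hc
  obtain ⟨s, hs⟩ := exists_nat_gt (2 / c)
  have hs0 : 0 < s := by
    have : (0 : ℝ) < s := lt_trans (by positivity) hs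
    exact_mod_cast this
  have hpow : 2 ≤ 2 ^ (2 * s) := by
    calc 2 = 2 ^ 1 := by norm_num
      _ ≤ 2 ^ (2 * s) := Nat.pow_le_pow_right (by norm_num) (by omega)
  obtain ⟨G, hG, hdom⟩ := exists_cover (dotGraph (2 * s + 1)) (K := 2 ^ (2 * s) - 1) (by omega)
    (degree_ge (2 * s))
  refine ⟨2 ^ (2 * s) - 1 + 1, _, _, inferInstance, inferInstance, dotGraph (2 * s + 1), G,
    by omega, hG, ?_⟩
  have hk : 2 ^ (2 * s) - 1 + 1 = 2 ^ (2 * s) := by omega
  have h1 := domNum_ge s
  rw [card_vec] at hdom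
  have h2 : (domNum G : ℝ) < 2 * 2 ^ (2 * s) := by
    have h3 : domNum G < 2 * 2 ^ (2 * s) := by
      have : 2 ^ (2 * s + 1) = 2 * 2 ^ (2 * s) := by ring
      omega
    exact_mod_cast h3
  have hkR : ((2 ^ (2 * s) - 1 + 1 : ℕ) : ℝ) = 2 ^ (2 * s) := by
    rw [hk]; push_cast; rfl
  rw [hkR]
  have h4 : ((s : ℝ) + 1) ≤ domNum (dotGraph (2 * s + 1)) := by exact_mod_cast h1
  have h5 : 2 < c * (s + 1) := by
    rw [div_lt_iff₀ hc] at hs
    nlinarith
  have h6 : (0 : ℝ) < 2 ^ (2 * s) := by positivity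
  calc (domNum G : ℝ) < 2 * 2 ^ (2 * s) := h2
    _ ≤ (c * (s + 1)) * 2 ^ (2 * s) := by nlinarith
    _ = c * 2 ^ (2 * s) * (s + 1) := by ring
    _ ≤ c * 2 ^ (2 * s) * domNum (dotGraph (2 * s + 1)) := by
        apply mul_le_mul_of_nonneg_left h4
        positivity

end Pool.Agent.Results.MP_afd993_co.NoLinearBound
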